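import Pool.Agent.D0H96.UR.Fin

/-!
MP_5d2315_pr. The two-type competing urn scheme on `ℤ`, started with one ball of a fair coin colour at each site: the
width of the monochromatic interval which contains the site `0` is of order `√t`. So the estimate with `√(t / log t)`
is false.
-/

set_option autoImplicit false

open Filter Topology MeasureTheory Set

namespace Pool.Agent.Results.MP_5d2315_pr.WidthOfIntervals

open Pool.Agent.D0H96.UR

/-- There is one and only one family `p` of transition probabilities of the urn scheme (`IsUrn`), and for every `t ≥ 0`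
there is one and only one law `μ t` of the configuration at time `t` of the scheme started with one ball of a fair coin
colour at each site of `ℤ` (`IsLaw`). For every `ε > 0` there are `c > 0` and `C` such that for all large `t`, with
probability at least `1 - ε`, the site `0` is in a monochromatic interval and every monochromatic interval which
contains `0` has at least `c √t` and at most `C √t` sites (`Width`). In particular, for every constant `C` the
probability that a monochromatic interval which contains `0` has at most `C √(t / log t)` sites tends to `0`. -/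
theorem result : ∃ p : ℝ → Cfg → Cfg → ℝ, IsUrn p ∧ (∀ q, IsUrn q → ∀ t, 0 ≤ t → q t = p t) ∧
    ∃ μ : ℝ → Measure (ℤ → ℤ), (∀ t, 0 ≤ t → IsLaw p t (μ t) ∧ ∀ ν, IsLaw p t ν → ν = μ t) ∧
      (∀ ε : ℝ, 0 < ε → ∃ c C T₀ : ℝ, 0 < c ∧ ∀ t, T₀ ≤ t →
        μ t {ξ | ¬ Width ξ (c * √t) (C * √t)} ≤ ENNReal.ofReal ε) ∧
      ∀ C : ℝ, Tendsto (fun t => μ t {ξ | ∃ I, IsMono ξ I ∧ (0 : ℤ) ∈ I ∧ I.Finite ∧
        (I.ncard : ℝ) ≤ C * √(t / Real.log t)}) atTop (𝓝 0) := by
  have h1 : ∀ t : ℝ, ∃ μ : Measure (ℤ → ℤ), 0 ≤ t → IsLaw ptr t μ := by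
    intro t
    rcases le_or_gt 0 t with ht | ht
    · obtain ⟨μ, hμ⟩ := law.2 t ht
      exact ⟨μ, fun _ => hμ⟩
    · exact ⟨0, fun h => absurd h (not_le.2 ht)⟩
  choose μ hμ using h1
  have h2 := tight μ hμ
  refine ⟨ptr, isUrn_ptr mp ex, fun q hq t ht => ?_, μ, fun t ht => ⟨hμ t ht, fun ν hν => law_unique (hμ t ht) hν⟩,
    fun ε hε => ?_, fails μ h2⟩
  · funext η ξ
    exact isUrn_unique mp ex hq ht η ξ
  · obtain ⟨c, C, T₀, hc, -, h⟩ := h2 ε hε
    exact ⟨c, C, T₀, hc, h⟩

end Pool.Agent.Results.MP_5d2315_pr.WidthOfIntervals
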